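import Pool.Agent.Helper33.AC.Toolkit

/-! Packet P6 for MP_29fd35_lc: semicomputable predicates in a set; Σ₁ predicates reduce to the
halting set. -/

set_option autoImplicit false

namespace Pool.Agent.Helper7.AC

open Nat.Partrec (Code)
open Denumerable Encodable

theorem semi {X : ℕ → Bool} (P : ℕ → List Bool → Bool) (hP : Computable₂ P) :
    ∃ ψ : ℕ →. ℕ, Nat.RecursiveIn {chi X} ψ ∧ ∀ n, (ψ n).Dom ↔ ∃ t, P n (pre X t) = true := by
  have h1 : Computable (fun q : ℕ => Bool.toNat (!
      (P (Nat.unpair q).1 ((decode (Nat.unpair q).2 : Option (List Bool)).getD [])))) := by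
    have ha : Computable (fun q : ℕ => (Nat.unpair q).1) :=
      (Computable.fst).comp Computable.unpair
    have hb : Computable (fun q : ℕ => ((decode (Nat.unpair q).2 : Option (List Bool)).getD [])) :=
      Computable.option_getD (Computable.decode.comp ((Computable.snd).comp Computable.unpair))
        (Computable.const [])
    have hc : Computable (fun q : ℕ =>
        (P (Nat.unpair q).1 ((decode (Nat.unpair q).2 : Option (List Bool)).getD []))) :=
      hP.comp ha hb
    have hd : Computable (fun b : Bool => Bool.toNat (! b)) :=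
      (Primrec.dom_bool _).to_comp
    exact hd.comp hc
  have h2 : Tot X (fun p => Bool.toNat (! (P (Nat.unpair p).1 (AC.pre X (Nat.unpair p).2)))) := by
    have ha : Tot X (fun p => (Nat.unpair p).1) :=
      Tot.of_computable ((Computable.fst).comp Computable.unpair)
    have hb : Tot X (fun p => encode (AC.pre X (Nat.unpair p).2)) :=
      Tot.comp (Tot.pre X) (Tot.of_computable ((Computable.snd).comp Computable.unpair))
    have hc := Tot.comp (Tot.of_computable h1) (Tot.pair ha hb)
    simpa using hc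
  refine ⟨_, Nat.RecursiveIn.rfind h2, fun n => ?_⟩
  simp only [Nat.unpair_pair]
  rw [Nat.rfind_dom']
  constructor
  · rintro ⟨t, ht, -⟩
    refine ⟨t, ?_⟩
    simpa using ht
  · rintro ⟨t, ht⟩
    refine ⟨t, ?_, ?_⟩
    · simpa using ht
    · intro m _
      simp

theorem hB_le_iff_exists (B : ℕ → Bool) (ρ : List Bool) (k : ℕ) :
    hB B ρ ≤ k ↔ (encode ρ + 3 ≤ k ∨
      ∃ x, B x = true ∧ (Nat.unpair x).1 ≤ k ∧ (Nat.unpair (Nat.unpair x).2).1 = encode ρ) := by
  constructor
  · intro h
    have hne : ({r | ∃ j, B (Nat.pair r (Nat.pair (encode ρ) j)) = true} ∪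
        {encode ρ + 3} : Set ℕ).Nonempty := ⟨_, Or.inr rfl⟩
    have hm := Nat.sInf_mem hne
    change hB B ρ ∈ _ at hm
    rcases hm with ⟨j, hj⟩ | hm
    · right
      refine ⟨_, hj, ?_, ?_⟩
      · simpa using h
      · simp
    · left
      rw [Set.mem_singleton_iff] at hm
      omega
  · rintro (h | ⟨x, hx, h1, h2⟩)
    · exact le_trans (Nat.sInf_le (Or.inr rfl)) h
    · refine le_trans (Nat.sInf_le (Or.inl ?_)) h1
      refine ⟨(Nat.unpair (Nat.unpair x).2).2, ?_⟩
      rw [← h2, Nat.pair_unpair, Nat.pair_unpair]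
      exact hx

/-- The predicate used in `hB_semi`. -/
def hBP (n : ℕ) (τ : List Bool) : Bool :=
  decide ((Nat.unpair n).1 + 3 ≤ (Nat.unpair n).2) ||
    (decide (1 ≤ τ.length) && (τ.getD (τ.length - 1) false &&
      (decide ((Nat.unpair (τ.length - 1)).1 ≤ (Nat.unpair n).2) &&
        decide ((Nat.unpair (Nat.unpair (τ.length - 1)).2).1 = (Nat.unpair n).1))))

theorem hBP_primrec : Primrec₂ hBP := by
  unfold hBP
  have hn1 : Primrec (fun p : ℕ × List Bool => (Nat.unpair p.1).1) :=
    Primrec.fst.comp (Primrec.unpair.comp Primrec.fst)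
  have hn2 : Primrec (fun p : ℕ × List Bool => (Nat.unpair p.1).2) :=
    Primrec.snd.comp (Primrec.unpair.comp Primrec.fst)
  have hl : Primrec (fun p : ℕ × List Bool => p.2.length) :=
    Primrec.list_length.comp Primrec.snd
  have hl1 : Primrec (fun p : ℕ × List Bool => p.2.length - 1) :=
    Primrec.nat_sub.comp hl (Primrec.const 1)
  have hx1 : Primrec (fun p : ℕ × List Bool => (Nat.unpair (p.2.length - 1)).1) :=
    Primrec.fst.comp (Primrec.unpair.comp hl1)
  have hx2 : Primrec (fun p : ℕ × List Bool =>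
      (Nat.unpair (Nat.unpair (p.2.length - 1)).2).1) :=
    Primrec.fst.comp (Primrec.unpair.comp (Primrec.snd.comp (Primrec.unpair.comp hl1)))
  have hg : Primrec (fun p : ℕ × List Bool => p.2.getD (p.2.length - 1) false) :=
    (Primrec.list_getD false).comp Primrec.snd hl1
  have d1 : Primrec (fun p : ℕ × List Bool =>
      decide ((Nat.unpair p.1).1 + 3 ≤ (Nat.unpair p.1).2)) :=
    PrimrecRel.decide (Primrec.nat_le.comp₂ ((Primrec.nat_add.comp hn1 (Primrec.const 3)).to₂)
      hn2.to₂)
  have d2 : Primrec (fun p : ℕ × List Bool => decide (1 ≤ p.2.length)) :=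
    PrimrecRel.decide (Primrec.nat_le.comp₂ ((Primrec.const 1).to₂) hl.to₂)
  have d3 : Primrec (fun p : ℕ × List Bool =>
      decide ((Nat.unpair (p.2.length - 1)).1 ≤ (Nat.unpair p.1).2)) :=
    PrimrecRel.decide (Primrec.nat_le.comp₂ hx1.to₂ hn2.to₂)
  have d4 : Primrec (fun p : ℕ × List Bool =>
      decide ((Nat.unpair (Nat.unpair (p.2.length - 1)).2).1 = (Nat.unpair p.1).1)) :=
    PrimrecRel.decide (Primrec.eq.comp₂ hx2.to₂ hn1.to₂)
  exact (Primrec.or.comp d1 (Primrec.and.comp d2 (Primrec.and.comp hg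
    (Primrec.and.comp d3 d4)))).to₂

theorem hB_semi (B : ℕ → Bool) :
    ∃ ψ : ℕ →. ℕ, Nat.RecursiveIn {chi B} ψ ∧
      ∀ (ρ : List Bool) (k : ℕ), (ψ (Nat.pair (encode ρ) k)).Dom ↔ hB B ρ ≤ k := by
  obtain ⟨ψ, h1, h2⟩ := semi (X := B) hBP hBP_primrec.to_comp
  refine ⟨ψ, h1, fun ρ k => ?_⟩
  rw [h2, hB_le_iff_exists]
  simp only [hBP, Nat.unpair_pair, Bool.or_eq_true, decide_eq_true_eq, Bool.and_eq_true]
  constructor
  · rintro ⟨t, h | ⟨h3, h4, h5, h6⟩⟩
    · exact Or.inl h
    · right
      have hlen : (pre B t).length = t := by simp [AC.pre]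
      rw [hlen] at h3 h4 h5 h6
      refine ⟨t - 1, ?_, h5, h6⟩
      have : (pre B t).getD (t - 1) false = B (t - 1) := by
        simp only [AC.pre, List.getD_eq_getElem?_getD]
        rw [List.getElem?_eq_getElem (by simp; omega)]
        simp
      rw [this] at h4
      exact h4
  · rintro (h | ⟨x, hx, h3, h4⟩)
    · exact ⟨0, Or.inl h⟩
    · refine ⟨x + 1, Or.inr ?_⟩
      have hlen : (pre B (x + 1)).length = x + 1 := by simp [AC.pre]
      rw [hlen]
      simp only [Nat.add_sub_cancel]
      refine ⟨by omega, ?_, h3, h4⟩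
      have : (pre B (x + 1)).getD x false = B x := by
        simp only [AC.pre, List.getD_eq_getElem?_getD]
        rw [List.getElem?_eq_getElem (by simp)]
        simp
      rw [this]
      exact hx

theorem sigma1 (Q : ℕ → ℕ → Bool) (hQ : Computable₂ Q) :
    ∃ g : ℕ → ℕ, Computable g ∧ ∀ x, halt (g x) = true ↔ ∃ t, Q x t = true := by
  have h1 : Partrec (fun p : ℕ =>
      Nat.rfind (fun t => (Part.some (Q (Nat.unpair p).1 t) : Part Bool))) := by
    apply Partrec.rfind
    have : Computable (fun q : ℕ × ℕ => Q (Nat.unpair q.1).1 q.2) :=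
      hQ.comp ((Computable.fst).comp (Computable.unpair.comp Computable.fst)) Computable.snd
    exact this.partrec
  obtain ⟨c, hc⟩ := Nat.Partrec.Code.exists_code.1 (Partrec.nat_iff.1 h1)
  refine ⟨fun x => encode (Code.curry c x), ?_, fun x => ?_⟩
  · exact Computable.encode.comp (Nat.Partrec.Code.primrec₂_curry.to_comp.comp
      (Computable.const c) Computable.id)
  · have h2 : halt (encode (Code.curry c x)) = true ↔
        (Code.eval (ofNat Code (encode (Code.curry c x))) (encode (Code.curry c x))).Dom := by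
      unfold halt
      exact @decide_eq_true_iff _ (Classical.propDecidable _)
    rw [h2, ofNat_encode, Nat.Partrec.Code.eval_curry, hc]
    simp only [Nat.unpair_pair]
    rw [Nat.rfind_dom']
    constructor
    · rintro ⟨t, ht, -⟩
      exact ⟨t, by simpa using ht⟩
    · rintro ⟨t, ht⟩
      exact ⟨t, by simpa using ht, fun _ => by simp⟩

end Pool.Agent.Helper7.AC
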