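import Pool.Agent.Helper7.AC.Defs

/-! Packet P8 for MP_29fd35_lc: toolkit for total functions recursive in a set. -/

set_option autoImplicit false

namespace Pool.Agent.Helper7.AC

open Nat.Partrec (Code)
open Denumerable Encodable

theorem Tot.comp {X : ℕ → Bool} {f g : ℕ → ℕ} (hf : Tot X f) (hg : Tot X g) :
    Tot X (fun n => f (g n)) := by
  unfold Tot at *
  exact (Nat.RecursiveIn.comp hf hg).of_eq (fun n => by simp)

theorem Tot.pair {X : ℕ → Bool} {f g : ℕ → ℕ} (hf : Tot X f) (hg : Tot X g) :
    Tot X (fun n => Nat.pair (f n) (g n)) := by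
  unfold Tot at *
  exact (Nat.RecursiveIn.pair hf hg).of_eq (fun n => by simp [Seq.seq])

theorem Tot.of_computable {X : ℕ → Bool} {f : ℕ → ℕ} (hf : Computable f) : Tot X f := by
  unfold Tot
  have h : Partrec (fun n => (Part.some (f n) : Part ℕ)) := hf.partrec
  exact (Partrec.nat_iff.1 h).recursiveIn

theorem Tot.oracle (X : ℕ → Bool) : Tot X (fun n => Bool.toNat (X n)) := by
  unfold Tot
  exact Nat.RecursiveIn.oracle (chi X) rfl

theorem Tot.iterate {X : ℕ → Bool} {f : ℕ → ℕ → ℕ}
    (hf : Tot X (fun p => f (Nat.unpair p).1 (Nat.unpair p).2)) (a : ℕ) :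
    Tot X (fun n => Nat.rec a (fun s x => f s x) n) := by
  have h1 : Tot X (fun _ => a) := Tot.of_computable (Computable.const a)
  have h2 : Tot X (fun p => f (Nat.unpair (Nat.unpair p).2).1 (Nat.unpair (Nat.unpair p).2).2) := by
    have h3 : Tot X (fun p => (Nat.unpair p).2) :=
      Tot.of_computable ((Computable.snd).comp Computable.unpair)
    exact Tot.comp hf h3
  have h4 : Tot X (fun p => Nat.rec a (fun s x => f s x) (Nat.unpair p).2) := by
    unfold Tot at *
    refine (Nat.RecursiveIn.prec h1 h2).of_eq (fun p => ?_)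
    simp only
    induction (Nat.unpair p).2 with
    | zero => rfl
    | succ n ih =>
      simp only
      rw [ih]
      simp
  have h5 : Tot X (fun n => Nat.pair 0 n) :=
    Tot.pair (Tot.of_computable (Computable.const 0)) (Tot.of_computable Computable.id)
  have h6 := Tot.comp h4 h5
  simpa using h6

theorem Tot.search {X : ℕ → Bool} {h : ℕ → ℕ} (Q : ℕ → ℕ → Bool) (hQ : Computable₂ Q)
    (hh : Tot X h) (hex : ∀ x, ∃ t, Q (h x) t = true) :
    Tot X (fun x => sInf {t | Q (h x) t = true}) := by
  have h1 : Partrec (fun y => Nat.rfind (fun t => (Part.some (Q y t) : Part Bool))) := by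
    apply Partrec.rfind
    exact hQ.partrec₂
  have h2 : Nat.RecursiveIn {chi X} (fun y => Nat.rfind (fun t => (Part.some (Q y t) : Part Bool))) :=
    (Partrec.nat_iff.1 h1).recursiveIn
  unfold Tot at *
  refine (Nat.RecursiveIn.comp h2 hh).of_eq (fun x => ?_)
  have h3 : sInf {t | Q (h x) t = true} ∈
      Nat.rfind (fun t => (Part.some (Q (h x) t) : Part Bool)) := by
    rw [Nat.mem_rfind]
    have hne : {t | Q (h x) t = true}.Nonempty := hex x
    refine ⟨?_, ?_⟩
    · have := Nat.sInf_mem hne
      simp only [Set.mem_ofPred_eq] at this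
      simp [this]
    · intro m hm
      have := Nat.notMem_of_lt_sInf hm
      simp only [Set.mem_ofPred_eq, Bool.not_eq_true] at this
      simp [this]
  simp only [Part.bind_eq_bind, Part.bind_some]
  exact Part.eq_some_iff.2 h3

/-- Append a bit (given as a number) to the string with a given code. -/
def snocCodeTk (x b : ℕ) : ℕ :=
  encode (((decode x : Option (List Bool)).getD []) ++ [decide (b = 1)])

theorem snocCodeTk_primrec : Primrec₂ snocCodeTk := by
  unfold snocCodeTk
  have h1 : Primrec (fun p : ℕ × ℕ => ((decode p.1 : Option (List Bool)).getD [])) :=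
    Primrec.option_getD.comp (Primrec.decode.comp Primrec.fst) (Primrec.const [])
  have h2 : Primrec (fun p : ℕ × ℕ => decide (p.2 = 1)) :=
    PrimrecRel.decide (Primrec.eq.comp₂ Primrec₂.right (Primrec₂.const 1))
  have h3 : Primrec (fun p : ℕ × ℕ => ((decode p.1 : Option (List Bool)).getD []) ++
      [decide (p.2 = 1)]) :=
    Primrec.list_append.comp h1 (Primrec.list_cons.comp h2 (Primrec.const []))
  exact (Primrec.encode.comp h3).to₂

theorem pre_succ_tk (X : ℕ → Bool) (n : ℕ) : pre X (n + 1) = pre X n ++ [X n] := by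
  simp [pre, List.range_succ]

theorem snocCodeTk_pre (X : ℕ → Bool) (n : ℕ) :
    snocCodeTk (encode (pre X n)) (Bool.toNat (X n)) = encode (pre X (n + 1)) := by
  unfold snocCodeTk
  rw [encodek, pre_succ_tk]
  cases X n <;> simp

theorem Tot.pre (X : ℕ → Bool) : Tot X (fun n => encode (pre X n)) := by
  have h1 : Tot X (fun p => snocCodeTk (Nat.unpair p).2 (Bool.toNat (X (Nat.unpair p).1))) := by
    have h2 : Tot X (fun p => (Nat.unpair p).2) :=
      Tot.of_computable ((Computable.snd).comp Computable.unpair)
    have h3 : Tot X (fun p => Bool.toNat (X (Nat.unpair p).1)) :=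
      Tot.comp (Tot.oracle X) (Tot.of_computable ((Computable.fst).comp Computable.unpair))
    have h4 : Tot X (fun q => snocCodeTk (Nat.unpair q).1 (Nat.unpair q).2) :=
      Tot.of_computable (snocCodeTk_primrec.to_comp.comp
        ((Computable.fst).comp Computable.unpair) ((Computable.snd).comp Computable.unpair))
    have h5 := Tot.comp h4 (Tot.pair h2 h3)
    simpa using h5
  have h6 := Tot.iterate (f := fun s x => snocCodeTk x (Bool.toNat (X s))) h1
    (encode (AC.pre X 0))
  have h7 : (fun n => encode (AC.pre X n)) =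
      (fun n => Nat.rec (encode (AC.pre X 0)) (fun s x => snocCodeTk x (Bool.toNat (X s))) n) := by
    funext n
    induction n with
    | zero => rfl
    | succ n ih =>
      rw [← snocCodeTk_pre, ih]
  rw [h7]
  exact h6

end Pool.Agent.Helper7.AC
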